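import Mathlib
import Pool.Agent.TH161.KS.Defs

/-!
# Project KS: elementary facts on `pr`, `ex`, `dd`, `hh`, `rho`, `tau`
-/

set_option autoImplicit false

open Finset Filter Topology
open scoped Classical

namespace Pool.Agent.TH161.KS

open Pool.Agent.TH161.LW

set_option linter.unusedSectionVars false

variable {α : Type} [Fintype α] [PartialOrder α] {M : ℕ}

lemma pr_nonneg (p : (α → ℕ) → Prop) : 0 ≤ pr α M p := by unfold pr; positivity

lemma pr_le_one (p : (α → ℕ) → Prop) : pr α M p ≤ 1 := by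
  unfold pr
  refine div_le_one_of_le₀ ?_ (by positivity)
  exact_mod_cast Finset.card_le_card (Finset.filter_subset _ _)

lemma pr_mono {p q : (α → ℕ) → Prop} (h : ∀ f ∈ Om α M, p f → q f) : pr α M p ≤ pr α M q := by
  unfold pr
  refine div_le_div_of_nonneg_right ?_ (by positivity)
  have : (Om α M).filter p ⊆ (Om α M).filter q := fun f hf => by
    rw [Finset.mem_filter] at hf ⊢
    exact ⟨hf.1, h f hf.1 hf.2⟩
  exact_mod_cast Finset.card_le_card this

lemma pr_true (hne : (Om α M).Nonempty) {p : (α → ℕ) → Prop} (h : ∀ f ∈ Om α M, p f) :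
    pr α M p = 1 := by
  unfold pr
  have h0 : (0 : ℝ) < (Om α M).card := by exact_mod_cast hne.card_pos
  rw [Finset.filter_true_of_mem h, div_self h0.ne']

lemma ex_mono {X Y : (α → ℕ) → ℝ} (h : ∀ f ∈ Om α M, X f ≤ Y f) : ex α M X ≤ ex α M Y := by
  unfold ex
  exact div_le_div_of_nonneg_right (Finset.sum_le_sum h) (by positivity)

lemma ex_nonneg {X : (α → ℕ) → ℝ} (h : ∀ f ∈ Om α M, 0 ≤ X f) : 0 ≤ ex α M X := by
  unfold ex
  exact div_nonneg (Finset.sum_nonneg h) (by positivity)

lemma ex_add (X Y : (α → ℕ) → ℝ) : ex α M (fun f => X f + Y f) = ex α M X + ex α M Y := by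
  unfold ex
  rw [Finset.sum_add_distrib, add_div]

lemma ex_sub (X Y : (α → ℕ) → ℝ) : ex α M (fun f => X f - Y f) = ex α M X - ex α M Y := by
  unfold ex
  rw [Finset.sum_sub_distrib, sub_div]

lemma ex_const (hne : (Om α M).Nonempty) (c : ℝ) : ex α M (fun _ => c) = c := by
  unfold ex
  have h0 : (0 : ℝ) < (Om α M).card := by exact_mod_cast hne.card_pos
  rw [Finset.sum_const, nsmul_eq_mul, mul_div_cancel_left₀ _ h0.ne']

lemma ex_mul (c : ℝ) (X : (α → ℕ) → ℝ) : ex α M (fun f => c * X f) = c * ex α M X := by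
  unfold ex
  rw [← Finset.mul_sum, mul_div_assoc]

lemma abs_ex_le (X : (α → ℕ) → ℝ) : |ex α M X| ≤ ex α M (fun f => |X f|) := by
  unfold ex
  rw [abs_div, abs_of_nonneg (by positivity : (0 : ℝ) ≤ ((Om α M).card : ℝ))]
  exact div_le_div_of_nonneg_right (Finset.abs_sum_le_sum_abs _ _) (by positivity)

lemma ex_ind (p : (α → ℕ) → Prop) : ex α M (fun f => if p f then 1 else 0) = pr α M p := by
  unfold ex pr
  rw [Finset.sum_boole]

lemma pr_or (p q : (α → ℕ) → Prop) : pr α M (fun f => p f ∨ q f) ≤ pr α M p + pr α M q := by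
  rw [← ex_ind, ← ex_ind, ← ex_ind, ← ex_add]
  refine ex_mono fun f _ => ?_
  by_cases hp : p f <;> by_cases hq : q f <;> simp [hp, hq]

lemma pr_le_add {p q r : (α → ℕ) → Prop} (h : ∀ f ∈ Om α M, p f → q f ∨ r f) :
    pr α M p ≤ pr α M q + pr α M r := (pr_mono h).trans (pr_or q r)

lemma pr_compl (hne : (Om α M).Nonempty) (p : (α → ℕ) → Prop) :
    pr α M p + pr α M (fun f => ¬ p f) = 1 := by
  rw [← ex_ind, ← ex_ind, ← ex_add]
  refine Eq.trans ?_ (ex_const (M := M) hne (1 : ℝ))
  congr 1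
  funext f
  by_cases hp : p f <;> simp [hp]

/-- Markov's inequality -/
lemma markov {X : (α → ℕ) → ℝ} (h : ∀ f ∈ Om α M, 0 ≤ X f) (t : ℝ) :
    t * pr α M (fun f => t ≤ X f) ≤ ex α M X := by
  rw [← ex_ind, ← ex_mul]
  refine ex_mono fun f hf => ?_
  by_cases hc : t ≤ X f
  · simp [hc]
  · simp [hc, h f hf]

lemma markov_div {X : (α → ℕ) → ℝ} (h : ∀ f ∈ Om α M, 0 ≤ X f) {t B : ℝ} (ht : 0 < t)
    (hB : ex α M X ≤ B) : pr α M (fun f => t ≤ X f) ≤ B / t := by
  rw [le_div_iff₀ ht, mul_comm]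
  exact (markov h t).trans hB

lemma unit_pos : 0 < unit α M := by unfold unit; positivity

lemma dd_add (x y z : α) (f : α → ℕ) : dd M x y f + dd M y z f = dd M x z f := by
  unfold dd
  rw [← add_div]
  congr 1
  ring

lemma dd_neg (x y : α) (f : α → ℕ) : dd M y x f = - dd M x y f := by
  unfold dd
  rw [← neg_div]
  congr 1
  ring

lemma ex_dd (x y : α) : ex α M (dd M x y) = hh M y - hh M x := by
  unfold hh
  rw [← ex_sub]
  congr 1
  funext f
  unfold dd
  rw [sub_div]

lemma rho_nonneg (x y : α) : 0 ≤ rho M x y := ex_nonneg fun _ _ => abs_nonneg _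

lemma tau_nonneg (x y : α) : 0 ≤ tau M x y := ex_nonneg fun _ _ => abs_nonneg _

lemma rho_comm (x y : α) : rho M x y = rho M y x := by
  unfold rho
  congr 1
  funext f
  rw [dd_neg, abs_neg]

lemma tau_comm (x y : α) : tau M x y = tau M y x := by
  unfold tau
  congr 1
  funext f
  rw [dd_neg y x, ← abs_neg]
  congr 1
  ring

lemma rho_self (x : α) : rho M x x = 0 := by
  unfold rho dd ex
  simp

lemma rho_tri (x y z : α) : rho M x z ≤ rho M x y + rho M y z := by
  unfold rho
  rw [← ex_add]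
  refine ex_mono fun f _ => ?_
  rw [← dd_add x y z f]
  exact abs_add_le _ _

lemma tau_tri (x y z : α) : tau M x z ≤ tau M x y + tau M y z := by
  unfold tau
  rw [← ex_add]
  refine ex_mono fun f _ => ?_
  rw [← dd_add x y z f]
  have : dd M x y f + dd M y z f - (hh M z - hh M x) =
    (dd M x y f - (hh M y - hh M x)) + (dd M y z f - (hh M z - hh M y)) := by ring
  rw [this]
  exact abs_add_le _ _

lemma hh_le_rho (x y : α) : |hh M y - hh M x| ≤ rho M x y := by
  rw [← ex_dd]
  exact abs_ex_le _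

lemma rho_le (hne : (Om α M).Nonempty) (x y : α) :
    rho M x y ≤ |hh M y - hh M x| + tau M x y := by
  unfold rho tau
  have h1 := ex_const hne |hh M y - hh M x|
  rw [← h1, ← ex_add]
  refine ex_mono fun f _ => ?_
  have : dd M x y f = (hh M y - hh M x) + (dd M x y f - (hh M y - hh M x)) := by ring
  calc |dd M x y f| = |(hh M y - hh M x) + (dd M x y f - (hh M y - hh M x))| := by rw [← this]
    _ ≤ _ := abs_add_le _ _

/-- the mean deviation from a number is at least half of `tau` -/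
lemma tau_le_two (hne : (Om α M).Nonempty) (x y : α) (m : ℝ) :
    tau M x y ≤ 2 * ex α M (fun f => |dd M x y f - m|) := by
  have h1 : |hh M y - hh M x - m| ≤ ex α M (fun f => |dd M x y f - m|) := by
    rw [← ex_dd, ← ex_const (M := M) hne m, ← ex_sub]
    refine (abs_ex_le _).trans (le_of_eq ?_)
    rw [ex_const hne]
  have h2 : tau M x y ≤ ex α M (fun f => |dd M x y f - m|) + |hh M y - hh M x - m| := by
    have h3 := ex_const hne |hh M y - hh M x - m|
    rw [← h3, ← ex_add]
    unfold tau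
    refine ex_mono fun f _ => ?_
    have : dd M x y f - (hh M y - hh M x) = (dd M x y f - m) - (hh M y - hh M x - m) := by ring
    rw [this]
    exact abs_sub _ _
  linarith

lemma rho_le_dist (hne : (Om α M).Nonempty) (x y : α) (m : ℝ) :
    ex α M (fun f => |dd M x y f - m|) ≤ tau M x y + |hh M y - hh M x - m| := by
  have h3 := ex_const hne |hh M y - hh M x - m|
  rw [← h3]
  unfold tau
  rw [← ex_add]
  refine ex_mono fun f _ => ?_
  have : dd M x y f - m = (dd M x y f - (hh M y - hh M x)) + (hh M y - hh M x - m) := by ring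
  rw [this]
  exact abs_add_le _ _

lemma dd_abs_le {f : α → ℕ} (hf : f ∈ Om α M) (x y : α) :
    |dd M x y f| ≤ (Fintype.card α : ℝ) + 1 := by
  unfold dd
  rw [abs_div, abs_of_pos unit_pos, div_le_iff₀ unit_pos]
  have h1 : ((Fintype.card α : ℝ) + 1) * unit α M = (M : ℝ) + 1 := by
    unfold unit; field_simp
  rw [h1]
  have hx : (f x : ℝ) ≤ M := by exact_mod_cast ((mem_Om.mp hf).1 x).le
  have hy : (f y : ℝ) ≤ M := by exact_mod_cast ((mem_Om.mp hf).1 y).le
  have hx0 : (0 : ℝ) ≤ f x := by positivity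
  have hy0 : (0 : ℝ) ≤ f y := by positivity
  rw [abs_le]
  constructor <;> linarith

lemma rho_le_card (hne : (Om α M).Nonempty) (x y : α) :
    rho M x y ≤ (Fintype.card α : ℝ) + 1 := by
  unfold rho
  refine (ex_mono fun f hf => dd_abs_le hf x y).trans_eq (ex_const hne _)

lemma tau_le_rho (hne : (Om α M).Nonempty) (x y : α) : tau M x y ≤ 2 * rho M x y := by
  have := tau_le_two hne x y 0
  unfold rho
  simpa using this

lemma card_filter_le_of_pr (p : (α → ℕ) → Prop) (hne : (Om α M).Nonempty) :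
    (((Om α M).filter p).card : ℝ) = pr α M p * (Om α M).card := by
  unfold pr
  have h0 : (0 : ℝ) < (Om α M).card := by exact_mod_cast hne.card_pos
  rw [div_mul_cancel₀ _ h0.ne']

end Pool.Agent.TH161.KS
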