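import Mathlib
import Pool.Agent.TH161.KS.Basic

/-!
# Project KS: the counting argument for rails
-/

set_option autoImplicit false
set_option linter.unusedSectionVars false

open Finset Filter Topology
open scoped Classical

namespace Pool.Agent.TH161.KS

open Pool.Agent.TH161.LW

variable {α : Type} [Fintype α] [PartialOrder α] {M : ℕ}

/-- the elements moved across the place `u` -/
noncomputable def Del (Z : Finset α) (f : α → (α → ℕ)) (f₀ : α → ℕ) (y : α) (c : ℕ) (u : ℤ) :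
    Finset α :=
  univ.filter fun z => (∀ j ∈ Z, (f j z : ℤ) - f j y ≤ u + c) ∧ u < (f₀ z : ℤ) - f₀ y

lemma Del_card {Z : Finset α} {hZ : Z.Nonempty} {f : α → (α → ℕ)} {f₀ w : α → ℕ} {y : α} {c : ℕ}
    (hw : ∀ z, (w z : ℤ) - w y =
      min (Z.sup' hZ fun j => (f j z : ℤ) - f j y) ((f₀ z : ℤ) - f₀ y + c)) (u : ℤ) :
    ((Del Z f f₀ y c u).card : ℤ) = ((univ.filter fun z => (w z : ℤ) ≤ w y + (u + c)).card : ℤ) -
      (univ.filter fun z => (f₀ z : ℤ) ≤ f₀ y + u).card := by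
  have h1 : (univ.filter fun z => (w z : ℤ) ≤ w y + (u + c)) =
      (univ.filter fun z => (f₀ z : ℤ) ≤ f₀ y + u) ∪ Del Z f f₀ y c u := by
    ext z
    unfold Del
    simp only [Finset.mem_union, Finset.mem_filter, Finset.mem_univ, true_and]
    have h2 : (w z : ℤ) ≤ w y + (u + c) ↔ (w z : ℤ) - w y ≤ u + c := by
      constructor <;> intro h <;> linarith
    rw [h2, hw z, min_le_iff, Finset.sup'_le_iff]
    constructor
    · rintro (h | h)
      · by_cases h3 : (f₀ z : ℤ) ≤ f₀ y + u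
        · exact Or.inl h3
        · exact Or.inr ⟨h, by linarith⟩
      · exact Or.inl (by linarith)
    · rintro (h | h)
      · exact Or.inr (by linarith)
      · exact Or.inl h.1
  have h2 : Disjoint (univ.filter fun z => (f₀ z : ℤ) ≤ f₀ y + u) (Del Z f f₀ y c u) := by
    rw [Finset.disjoint_left]
    intro z hz hz'
    have h3 := (Finset.mem_filter.mp hz).2
    have h4 := (Finset.mem_filter.mp hz').2.2
    linarith
  rw [h1, Finset.card_union_of_disjoint h2]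
  push_cast
  ring

lemma Del_diff {Z : Finset α} {hZ : Z.Nonempty} {f : α → (α → ℕ)} {f₀ w : α → ℕ} {y : α} {c : ℕ}
    (hw : ∀ z, (w z : ℤ) - w y =
      min (Z.sup' hZ fun j => (f j z : ℤ) - f j y) ((f₀ z : ℤ) - f₀ y + c)) (u₁ u₂ : ℤ) :
    ((Del Z f f₀ y c u₂).card : ℤ) - (Del Z f f₀ y c u₁).card =
      (cnt w y (u₂ + c) - cnt f₀ y u₂) - (cnt w y (u₁ + c) - cnt f₀ y u₁) := by
  rw [Del_card hw u₁, Del_card hw u₂]
  unfold cnt
  ring

lemma Del_ge {Z : Finset α} {hZ : Z.Nonempty} {f : α → (α → ℕ)} {f₀ w : α → ℕ} {y : α} {c : ℕ}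
    (hw : ∀ z, (w z : ℤ) - w y =
      min (Z.sup' hZ fun j => (f j z : ℤ) - f j y) ((f₀ z : ℤ) - f₀ y + c)) {u₁ u₂ : ℤ} {K e : ℝ}
    (l1 : |(cnt w y (u₂ + c) : ℝ) - ((u₂ + c : ℤ) : ℝ) / K| < e)
    (l2 : |(cnt f₀ y u₂ : ℝ) - (u₂ : ℝ) / K| < e)
    (l3 : |(cnt w y (u₁ + c) : ℝ) - ((u₁ + c : ℤ) : ℝ) / K| < e)
    (l4 : |(cnt f₀ y u₁ : ℝ) - (u₁ : ℝ) / K| < e) :
    ((Del Z f f₀ y c u₁).card : ℝ) - 4 * e ≤ (Del Z f f₀ y c u₂).card := by
  have h := Del_diff hw u₁ u₂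
  have h' : ((Del Z f f₀ y c u₂).card : ℝ) - (Del Z f f₀ y c u₁).card =
      ((cnt w y (u₂ + c) : ℝ) - cnt f₀ y u₂) - (cnt w y (u₁ + c) - cnt f₀ y u₁) := by
    exact_mod_cast h
  rw [abs_lt] at l1 l2 l3 l4
  push_cast at l1 l3
  rw [add_div] at l1 l3
  linarith [l1.1, l1.2, l2.1, l2.2, l3.1, l3.2, l4.1, l4.2]

/-- the main counting argument -/
theorem count_main {Z : Finset α} {hZ : Z.Nonempty} {x y : α} {π : α → α}
    {g f : α → (α → ℕ)} {f₀ w : α → ℕ} {d : ℕ} {u₂ : ℤ} {W e a t₁ t₂ : ℝ} (hd : 0 < d)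
    (h0 : ∀ z, (f₀ z : ℤ) - f₀ y = Z.inf' hZ fun j => (g j z : ℤ) - g j y)
    (hw : ∀ z, (w z : ℤ) - w y =
      min (Z.sup' hZ fun j => (f j z : ℤ) - f j y) ((f₀ z : ℤ) - f₀ y + (8 * d : ℕ)))
    (l1 : |(cnt w y (u₂ + (8 * d : ℕ)) : ℝ) - ((u₂ + (8 * d : ℕ) : ℤ) : ℝ) / unit α M| < e)
    (l2 : |(cnt f₀ y u₂ : ℝ) - (u₂ : ℝ) / unit α M| < e)
    (l3 : |(cnt w y (-(4 * d : ℕ) + (8 * d : ℕ)) : ℝ) -
      ((-(4 * d : ℕ) + (8 * d : ℕ) : ℤ) : ℝ) / unit α M| < e)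
    (l4 : |(cnt f₀ y (-(4 * d : ℕ)) : ℝ) - ((-(4 * d : ℕ) : ℤ) : ℝ) / unit α M| < e)
    (hH : a ≤ ((univ.filter fun z : α => |hh M z - hh M x| ≤ W ∧ π z = y).card : ℝ))
    (hE : ∀ j ∈ Z, ∀ F : α → ℕ, (F = f j ∨ F = g j) →
      ((univ.filter fun z : α => |hh M z - hh M x| ≤ W ∧
        (d : ℝ) / unit α M ≤ |dd M (π z) z F|).card : ℝ) ≤ t₁)
    (hV : ∀ j ∈ Z, ∀ F : α → ℕ, (F = f j ∨ F = g j) →
      ((univ.filter fun z : α => W < |hh M z - hh M x| ∧
        |hh M z - hh M y| / 2 ≤ |dd M y z F - (hh M z - hh M y)|).card : ℝ) ≤ t₂)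
    (hfar : ∀ z : α, W < |hh M z - hh M x| →
      2 * (|(u₂ : ℝ)| + 8 * d) ≤ |hh M z - hh M y| * unit α M)
    (hsum : 4 * Z.card * t₁ + 4 * e + 2 * t₂ < a) :
    ∃ z : α, |hh M z - hh M x| ≤ W ∧ ∀ j ∈ Z, (f j z : ℤ) - f j y ≤ u₂ + (8 * d : ℕ) ∧
      u₂ < (g j z : ℤ) - g j y ∧ |(f j z : ℤ) - f j (π z)| < d ∧ |(g j z : ℤ) - g j (π z)| < d := by
  set K := unit α M with hK
  have hKpos : 0 < K := unit_pos
  -- exceptional elements
  set Ex : Finset α := Z.biUnion fun j =>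
    (univ.filter fun z : α => |hh M z - hh M x| ≤ W ∧ (d : ℝ) / K ≤ |dd M (π z) z (f j)|) ∪
    (univ.filter fun z : α => |hh M z - hh M x| ≤ W ∧ (d : ℝ) / K ≤ |dd M (π z) z (g j)|) with hEx
  have hExc : (Ex.card : ℝ) ≤ 2 * Z.card * t₁ := by
    have h1 : (Ex.card : ℝ) ≤ ∑ j ∈ Z, (2 * t₁) := by
      have h2 : (Ex.card : ℝ) ≤ ∑ j ∈ Z, (((univ.filter fun z : α => |hh M z - hh M x| ≤ W ∧
          (d : ℝ) / K ≤ |dd M (π z) z (f j)|) ∪
          (univ.filter fun z : α => |hh M z - hh M x| ≤ W ∧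
          (d : ℝ) / K ≤ |dd M (π z) z (g j)|)).card : ℝ) := by
        exact_mod_cast Finset.card_biUnion_le
      refine h2.trans (Finset.sum_le_sum fun j hj => ?_)
      have h3 : ((((univ.filter fun z : α => |hh M z - hh M x| ≤ W ∧
          (d : ℝ) / K ≤ |dd M (π z) z (f j)|) ∪
          (univ.filter fun z : α => |hh M z - hh M x| ≤ W ∧
          (d : ℝ) / K ≤ |dd M (π z) z (g j)|)).card : ℕ) : ℝ) ≤
          ((univ.filter fun z : α => |hh M z - hh M x| ≤ W ∧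
          (d : ℝ) / K ≤ |dd M (π z) z (f j)|).card : ℝ) +
          ((univ.filter fun z : α => |hh M z - hh M x| ≤ W ∧
          (d : ℝ) / K ≤ |dd M (π z) z (g j)|).card : ℝ) := by
        exact_mod_cast Finset.card_union_le _ _
      have h4 := hE j hj (f j) (Or.inl rfl)
      have h5 := hE j hj (g j) (Or.inr rfl)
      linarith
    rw [Finset.sum_const, nsmul_eq_mul] at h1
    linarith
  have hnotEx : ∀ z, z ∉ Ex → |hh M z - hh M x| ≤ W → ∀ j ∈ Z,
      |(f j z : ℤ) - f j (π z)| < d ∧ |(g j z : ℤ) - g j (π z)| < d := by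
    intro z hz hzW j hj
    have key : ∀ F : α → ℕ, ¬ ((d : ℝ) / K ≤ |dd M (π z) z F|) → |(F z : ℤ) - F (π z)| < d := by
      intro F hF
      rw [not_le] at hF
      unfold dd at hF
      rw [← hK, abs_div, abs_of_pos hKpos, div_lt_div_iff_of_pos_right hKpos] at hF
      have : ((|(F z : ℤ) - F (π z)| : ℤ) : ℝ) < (d : ℝ) := by push_cast; exact hF
      exact_mod_cast this
    refine ⟨key _ fun h => hz ?_, key _ fun h => hz ?_⟩
    · rw [hEx, Finset.mem_biUnion]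
      exact ⟨j, hj, Finset.mem_union_left _ (Finset.mem_filter.mpr ⟨Finset.mem_univ _, hzW, h⟩)⟩
    · rw [hEx, Finset.mem_biUnion]
      exact ⟨j, hj, Finset.mem_union_right _ (Finset.mem_filter.mpr ⟨Finset.mem_univ _, hzW, h⟩)⟩
  -- lower bound near `y`
  have hlow : a - 2 * Z.card * t₁ ≤ ((Del Z f f₀ y (8 * d) (-(4 * d : ℕ))).card : ℝ) := by
    have h1 : (univ.filter fun z : α => |hh M z - hh M x| ≤ W ∧ π z = y) \ Ex ⊆
        Del Z f f₀ y (8 * d) (-(4 * d : ℕ)) := by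
      intro z hz
      obtain ⟨hz1, hz2⟩ := Finset.mem_sdiff.mp hz
      obtain ⟨_, hzW, hzy⟩ := Finset.mem_filter.mp hz1
      have h2 := hnotEx z hz2 hzW
      unfold Del
      rw [Finset.mem_filter]
      refine ⟨Finset.mem_univ _, fun j hj => ?_, ?_⟩
      · have h3 := (h2 j hj).1
        rw [hzy, abs_lt] at h3
        push_cast
        omega
      · rw [h0 z, Finset.lt_inf'_iff]
        intro j hj
        have h3 := (h2 j hj).2
        rw [hzy, abs_lt] at h3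
        push_cast
        omega
    have h2 := Finset.card_le_card h1
    have h3 := Finset.le_card_sdiff Ex (univ.filter fun z : α => |hh M z - hh M x| ≤ W ∧ π z = y)
    have h4 : ((univ.filter fun z : α => |hh M z - hh M x| ≤ W ∧ π z = y).card : ℝ) - Ex.card ≤
        ((Del Z f f₀ y (8 * d) (-(4 * d : ℕ))).card : ℝ) := by
      have h5 : (univ.filter fun z : α => |hh M z - hh M x| ≤ W ∧ π z = y).card ≤
        (Del Z f f₀ y (8 * d) (-(4 * d : ℕ))).card + Ex.card := by omega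
      have h6 : ((univ.filter fun z : α => |hh M z - hh M x| ≤ W ∧ π z = y).card : ℝ) ≤
        (Del Z f f₀ y (8 * d) (-(4 * d : ℕ))).card + Ex.card := by exact_mod_cast h5
      linarith
    linarith
  have hmove := Del_ge (K := K) hw l1 l2 l3 l4
  -- non-local elements
  have hZ' := hZ
  obtain ⟨j₀, hj₀⟩ := hZ'
  set Vf := univ.filter fun z : α => W < |hh M z - hh M x| ∧
        |hh M z - hh M y| / 2 ≤ |dd M y z (f j₀) - (hh M z - hh M y)| with hVf
  set Vg := univ.filter fun z : α => W < |hh M z - hh M x| ∧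
        |hh M z - hh M y| / 2 ≤ |dd M y z (g j₀) - (hh M z - hh M y)| with hVg
  have hVfc : (Vf.card : ℝ) ≤ t₂ := hV j₀ hj₀ _ (Or.inl rfl)
  have hVgc : (Vg.card : ℝ) ≤ t₂ := hV j₀ hj₀ _ (Or.inr rfl)
  have hbad : ¬ (Del Z f f₀ y (8 * d) u₂ ⊆ Ex ∪ (Vf ∪ Vg)) := by
    intro hsub
    have h1 : ((Del Z f f₀ y (8 * d) u₂).card : ℝ) ≤ Ex.card + (Vf.card + Vg.card) := by
      have h2 := (Finset.card_le_card hsub).trans (Finset.card_union_le _ _)
      have h3 := Finset.card_union_le Vf Vg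
      exact_mod_cast h2.trans (Nat.add_le_add_left h3 _)
    linarith
  obtain ⟨z, hz, hz'⟩ := Finset.not_subset.mp hbad
  rw [Finset.mem_union, Finset.mem_union, not_or, not_or] at hz'
  obtain ⟨hzE, hzVf, hzVg⟩ := hz'
  obtain ⟨_, hzf, hzg⟩ := Finset.mem_filter.mp hz
  have hzg' : ∀ j ∈ Z, u₂ < (g j z : ℤ) - g j y := by
    rw [h0 z, Finset.lt_inf'_iff] at hzg
    exact hzg
  have hzW : |hh M z - hh M x| ≤ W := by
    by_contra hcon
    rw [not_le] at hcon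
    have hf1 := hfar z hcon
    have h1 : |dd M y z (f j₀) - (hh M z - hh M y)| < |hh M z - hh M y| / 2 := by
      by_contra h
      exact hzVf (Finset.mem_filter.mpr ⟨Finset.mem_univ _, hcon, not_lt.mp h⟩)
    have h2 : |dd M y z (g j₀) - (hh M z - hh M y)| < |hh M z - hh M y| / 2 := by
      by_contra h
      exact hzVg (Finset.mem_filter.mpr ⟨Finset.mem_univ _, hcon, not_lt.mp h⟩)
    have h3 : ((f j₀ z : ℝ) - f j₀ y) ≤ (u₂ : ℝ) + 8 * d := by
      have := hzf j₀ hj₀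
      push_cast at this
      exact_mod_cast this
    have h4 : (u₂ : ℝ) < (g j₀ z : ℝ) - g j₀ y := by exact_mod_cast hzg' j₀ hj₀
    have hdpos : (0 : ℝ) < d := by exact_mod_cast hd
    unfold dd at h1 h2
    rw [abs_lt] at h1 h2
    rcases le_total 0 (hh M z - hh M y) with hs | hs
    · rw [abs_of_nonneg hs] at h1 hf1
      have h5 : (hh M z - hh M y) / 2 < ((f j₀ z : ℝ) - f j₀ y) / K := by linarith [h1.1]
      rw [lt_div_iff₀ hKpos] at h5
      have h6 : (u₂ : ℝ) ≤ |(u₂ : ℝ)| := le_abs_self _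
      nlinarith
    · rw [abs_of_nonpos hs] at h2 hf1
      have h5 : ((g j₀ z : ℝ) - g j₀ y) / K < (hh M z - hh M y) / 2 := by linarith [h2.2]
      rw [div_lt_iff₀ hKpos] at h5
      have h6 : -(u₂ : ℝ) ≤ |(u₂ : ℝ)| := neg_le_abs _
      nlinarith
  refine ⟨z, hzW, fun j hj => ⟨hzf j hj, hzg' j hj, (hnotEx z hzE hzW j hj).1,
    (hnotEx z hzE hzW j hj).2⟩⟩

end Pool.Agent.TH161.KS
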