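import Mathlib
import Pool.Agent.TH161.KS.Cnt

/-!
# Project KS: nets, medians, law of large numbers at interior points
-/

set_option autoImplicit false
set_option linter.unusedSectionVars false

open Finset Filter Topology
open scoped Classical

namespace Pool.Agent.TH161.KS

open Pool.Agent.TH161.LW

variable {α : Type} [Fintype α] [PartialOrder α] {M : ℕ}

/-- maximal separated sets are nets -/
lemma exists_net (M : ℕ) (W : Finset α) (r : ℝ) (hr : 0 ≤ r) :
    ∃ Z ⊆ W, (∀ z ∈ Z, ∀ z' ∈ Z, z ≠ z' → r ≤ rho M z z') ∧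
      ∃ π : α → α, ∀ z ∈ W, π z ∈ Z ∧ rho M (π z) z ≤ r := by
  set S : Finset (Finset α) := W.powerset.filter fun Z =>
    ∀ z ∈ Z, ∀ z' ∈ Z, z ≠ z' → r ≤ rho M z z' with hS
  have hSne : S.Nonempty := by
    refine ⟨∅, ?_⟩
    rw [hS, Finset.mem_filter]
    refine ⟨Finset.mem_powerset.mpr (Finset.empty_subset _), ?_⟩
    intro z hz
    simp at hz
  obtain ⟨Z, hZS, hZmax⟩ := Finset.exists_max_image S Finset.card hSne
  obtain ⟨hZW, hZsep⟩ := Finset.mem_filter.mp hZS
  rw [Finset.mem_powerset] at hZW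
  refine ⟨Z, hZW, hZsep, ?_⟩
  have key : ∀ z ∈ W, ∃ z' ∈ Z, rho M z' z ≤ r := by
    intro z hz
    by_cases hzZ : z ∈ Z
    · exact ⟨z, hzZ, by rw [rho_self]; exact hr⟩
    by_contra hcon
    push Not at hcon
    have h1 : insert z Z ∈ S := by
      rw [hS, Finset.mem_filter, Finset.mem_powerset]
      refine ⟨Finset.insert_subset hz hZW, ?_⟩
      intro a ha b hb hab
      rw [Finset.mem_insert] at ha hb
      rcases ha with rfl | ha <;> rcases hb with rfl | hb
      · exact absurd rfl hab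
      · rw [rho_comm]; exact (hcon b hb).le
      · exact (hcon a ha).le
      · exact hZsep a ha b hb hab
    have h2 := hZmax _ h1
    rw [Finset.card_insert_of_notMem hzZ] at h2
    omega
  choose! π hπ using key
  exact ⟨π, fun z hz => ⟨(hπ z hz).1, (hπ z hz).2⟩⟩

/-- medians of differences -/
lemma exists_median (hne : (Om α M).Nonempty) (x y : α) : ∃ q : ℤ,
    1 / 2 ≤ pr α M (fun f => (f x : ℤ) - f y ≤ q) ∧
    1 / 2 ≤ pr α M (fun f => q ≤ (f x : ℤ) - f y) := by
  have hb : ∀ f ∈ Om α M, |(f x : ℤ) - f y| < M + 1 := by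
    intro f hf
    have hx := (mem_Om.mp hf).1 x
    have hy := (mem_Om.mp hf).1 y
    rw [abs_lt]
    constructor <;> omega
  obtain ⟨q, hq1, hq2⟩ := Int.exists_least_of_bdd
    (P := fun q : ℤ => 1 / 2 ≤ pr α M (fun f => (f x : ℤ) - f y ≤ q))
    ⟨-(M + 1 : ℤ), fun z hz => by
      by_contra hcon
      rw [not_le] at hcon
      have h1 : pr α M (fun f => (f x : ℤ) - f y ≤ z) ≤ pr α M (fun _ => False) := by
        refine pr_mono fun f hf hfz => ?_
        have h2 := hb f hf
        rw [abs_lt] at h2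
        omega
      have h2 : pr α M (fun _ => False) = 0 := by
        unfold pr
        simp
      have h3 : (1 / 2 : ℝ) ≤ 0 := by
        have h4 := hz.trans h1
        rw [h2] at h4
        exact h4
      norm_num at h3⟩
    ⟨(M + 1 : ℤ), by
      have h1 : pr α M (fun f => (f x : ℤ) - f y ≤ (M + 1 : ℤ)) = 1 := pr_true hne fun f hf => by
        have h2 := hb f hf
        rw [abs_lt] at h2
        omega
      show 1 / 2 ≤ pr α M (fun f => (f x : ℤ) - f y ≤ (M + 1 : ℤ))
      rw [h1]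
      norm_num⟩
  refine ⟨q, hq1, ?_⟩
  by_contra hcon
  rw [not_le] at hcon
  have h1 : 1 / 2 ≤ pr α M (fun f => (f x : ℤ) - f y ≤ q - 1) := by
    have h2 := pr_compl hne (fun f : α → ℕ => q ≤ (f x : ℤ) - f y)
    have h3 : pr α M (fun f => ¬ (q ≤ (f x : ℤ) - f y)) ≤
        pr α M (fun f => (f x : ℤ) - f y ≤ q - 1) := by
      refine pr_mono fun f _ hf => ?_
      omega
    linarith
  have h2 := hq2 (q - 1) h1
  omega

lemma median_le (x y : α) (q : ℤ)
    (h1 : 1 / 2 ≤ pr α M (fun f => (f x : ℤ) - f y ≤ q))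
    (h2 : 1 / 2 ≤ pr α M (fun f => q ≤ (f x : ℤ) - f y)) :
    |(q : ℝ)| / unit α M ≤ 2 * rho M y x := by
  have hK : 0 < unit α M := unit_pos
  have h3 : 1 / 2 ≤ pr α M (fun f => |(q : ℝ)| / unit α M ≤ |dd M y x f|) := by
    rcases le_total 0 q with hq | hq
    · refine h2.trans (pr_mono fun f _ hf => ?_)
      unfold dd
      rw [abs_div, abs_of_pos hK]
      refine div_le_div_of_nonneg_right ?_ hK.le
      have h4 : |q| ≤ |(f x : ℤ) - f y| := by
        rw [abs_of_nonneg hq]
        exact hf.trans (le_abs_self _)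
      exact_mod_cast h4
    · refine h1.trans (pr_mono fun f _ hf => ?_)
      unfold dd
      rw [abs_div, abs_of_pos hK]
      refine div_le_div_of_nonneg_right ?_ hK.le
      have h4 : |q| ≤ |(f x : ℤ) - f y| := by
        rw [abs_of_nonpos hq]
        exact (neg_le_neg hf).trans (neg_le_abs _)
      exact_mod_cast h4
  have h4 := markov (M := M) (X := fun f => |dd M y x f|) (fun f _ => abs_nonneg _)
    (|(q : ℝ)| / unit α M)
  have h5 : 0 ≤ |(q : ℝ)| / unit α M := div_nonneg (abs_nonneg _) hK.le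
  unfold rho
  nlinarith

/-- the law of large numbers at interior points -/
lemma lln_bad (hStd : Std α M) {y : α} {v : ℤ} {e B β : ℝ} (he : 0 < e)
    (hR : Rng α M y B β) (hv : |(v : ℝ)| ≤ B * unit α M) :
    pr α M (fun f => ¬ (|(cnt f y v : ℝ) - v / unit α M| < e)) ≤
      16 * (|(v : ℝ)| / unit α M + e + 1) / e ^ 2 + 1 / ((Fintype.card α : ℝ) + 1) ^ 4 + β := by
  refine (pr_le_add (q := fun f => 0 ≤ (f y : ℤ) + v ∧ (f y : ℤ) + v < M ∧
      e ≤ |(cnt f y v : ℝ) - v / unit α M|)
    (r := fun f => (f y : ℝ) < B * unit α M ∨ (M : ℝ) ≤ f y + B * unit α M) ?_).trans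
    (add_le_add (hStd.lln y v e he) hR)
  intro f _ hf
  rw [not_lt] at hf
  by_cases h1 : 0 ≤ (f y : ℤ) + v
  · by_cases h2 : (f y : ℤ) + v < M
    · exact Or.inl ⟨h1, h2, hf⟩
    · right; right
      rw [not_lt] at h2
      have h3 : (M : ℝ) ≤ (f y : ℝ) + v := by exact_mod_cast h2
      have h4 := le_abs_self (v : ℝ)
      linarith
  · right; left
    rw [not_le] at h1
    have h3 : (f y : ℝ) + v < 0 := by exact_mod_cast h1
    have h4 := neg_le_abs (v : ℝ)
    linarith

lemma Rng_mono {x : α} {B B' β β' : ℝ} (hB : B ≤ B') (hβ : β ≤ β') (h : Rng α M x B' β) :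
    Rng α M x B β' := by
  unfold Rng at h ⊢
  refine (pr_mono fun f _ hf => ?_).trans (h.trans hβ)
  have hK : 0 < unit α M := unit_pos
  have h1 : B * unit α M ≤ B' * unit α M := mul_le_mul_of_nonneg_right hB hK.le
  rcases hf with hf | hf
  · left; linarith
  · right; linarith

lemma card_bad {p : (α → ℕ) → Prop} {T : ℝ} (hne : (Om α M).Nonempty) (hT : 0 < T)
    (h : pr α M p < 1 / T) : (((Om α M).filter p).card : ℝ) * T < (Om α M).card := by
  rw [card_filter_le_of_pr p hne]
  have h0 : (0 : ℝ) < (Om α M).card := by exact_mod_cast hne.card_pos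
  rw [lt_div_iff₀ hT] at h
  calc pr α M p * (Om α M).card * T = (pr α M p * T) * (Om α M).card := by ring
    _ < 1 * (Om α M).card := mul_lt_mul_of_pos_right h h0
    _ = _ := one_mul _

/-- pigeonhole for the net map -/
lemma exists_heavy {Z : Finset α} {π : α → α} {S : Finset α} {N a : ℝ} (hN : 0 < N)
    (hZN : (Z.card : ℝ) ≤ N) (hS : ∀ z ∈ S, π z ∈ Z) (ha : 0 < a) (hSa : a ≤ S.card) :
    ∃ y ∈ Z, a / N ≤ ((S.filter fun z => π z = y).card : ℝ) := by
  by_contra hcon
  push Not at hcon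
  have h1 : (S.card : ℝ) = ∑ y ∈ Z, ((S.filter fun z => π z = y).card : ℝ) := by
    have h2 := Finset.card_eq_sum_card_fiberwise (f := π) (s := S) (t := Z)
      (fun z hz => Finset.mem_coe.mpr (hS z (Finset.mem_coe.mp hz)))
    exact_mod_cast h2
  have hZne : Z.Nonempty := by
    by_contra h
    rw [Finset.not_nonempty_iff_eq_empty] at h
    rw [h, Finset.sum_empty] at h1
    linarith
  have h2 : (S.card : ℝ) < ∑ _y ∈ Z, a / N := by
    rw [h1]
    exact Finset.sum_lt_sum_of_nonempty hZne hcon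
  rw [Finset.sum_const, nsmul_eq_mul] at h2
  have h3 : (Z.card : ℝ) * (a / N) ≤ a := by
    rw [← mul_div_assoc, div_le_iff₀ hN]
    nlinarith
  linarith

end Pool.Agent.TH161.KS
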