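import Mathlib
import Pool.Agent.TH161.KS.Fin
import Pool.Agent.TH161.KS.Pos

/-!
# Project KS: the assembly
-/

set_option autoImplicit false
set_option linter.unusedSectionVars false

open Finset Filter Topology
open scoped Classical

namespace Pool.Agent.TH161.KS

open Pool.Agent.TH161.LW

variable {α : Type} [Fintype α] [PartialOrder α] {M : ℕ}

/-- elements far from the bottom and the top have values far from the ends of the grid -/
theorem rng_key (hStd : Std α M) {b₀ t₀ z : α} (hb : ∀ q, b₀ ≤ q) (ht : ∀ q, q ≤ t₀)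
    {I B T β : ℝ} (hI : (inc z : ℝ) ≤ I) (hT : 0 < T) (h1 : B + T ≤ lw z)
    (h2 : B + T ≤ (Fintype.card α : ℝ) - 1 - lw z)
    (h3 : √((Fintype.card α : ℝ) + I + 1) + I + 2 ≤ β / 2 * T) : Rng α M z B β := by
  have hK : 0 < unit α M := unit_pos
  have hI0 : 0 ≤ I := le_trans (by positivity) hI
  have hlb : lw b₀ = 0 := by
    unfold lw
    rw [Finset.card_eq_zero, Finset.filter_eq_empty_iff]
    intro q _ hq
    exact absurd (hb q) (not_le_of_gt hq)
  have hib : inc b₀ = 0 := by
    unfold inc
    rw [Finset.card_eq_zero, Finset.filter_eq_empty_iff]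
    intro q _ hq
    exact hq.2 (hb q)
  have hit : inc t₀ = 0 := by
    unfold inc
    rw [Finset.card_eq_zero, Finset.filter_eq_empty_iff]
    intro q _ hq
    exact hq.1 (ht q)
  have hlt : (lw t₀ : ℝ) = (Fintype.card α : ℝ) - 1 := by
    have h4 : lw t₀ + 1 = Fintype.card α := by
      unfold lw
      have h5 : (univ.filter fun q : α => q < t₀) = univ.erase t₀ := by
        ext q
        simp only [Finset.mem_filter, Finset.mem_univ, true_and, Finset.mem_erase, and_true]
        constructor
        · intro h; exact h.ne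
        · intro h; exact lt_of_le_of_ne (ht q) h
      rw [h5, Finset.card_erase_of_mem (Finset.mem_univ _), Finset.card_univ]
      have : 0 < Fintype.card α := Fintype.card_pos_iff.mpr ⟨t₀⟩
      omega
    have h5 : ((lw t₀ + 1 : ℕ) : ℝ) = Fintype.card α := by exact_mod_cast h4
    push_cast at h5
    linarith
  have hlz : (lw z : ℝ) ≤ Fintype.card α := by exact_mod_cast lw_le_card z
  have hlz0 : (0 : ℝ) ≤ lw z := by positivity
  -- the bottom
  have e1 : pr α M (fun f => (f z : ℝ) < B * unit α M) ≤ β / 2 := by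
    have h4 := dist_key hStd b₀ z (I := I) (by rw [hib]; simpa using hI0) hI
    rw [hlb, Nat.cast_zero, sub_zero, abs_of_nonneg hlz0] at h4
    have h5 : √((lw z : ℝ) + I + 1) ≤ √((Fintype.card α : ℝ) + I + 1) :=
      Real.sqrt_le_sqrt (by linarith)
    have h6 := markov_div (M := M) (X := fun f => |dd M b₀ z f - (lw z : ℝ)|)
      (fun _ _ => abs_nonneg _) hT (B := β / 2 * T) (by linarith)
    rw [mul_div_assoc, div_self hT.ne', mul_one] at h6
    refine (pr_mono fun f _ hf => ?_).trans h6
    have h7 : dd M b₀ z f < B := by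
      unfold dd
      rw [div_lt_iff₀ hK]
      have : (0 : ℝ) ≤ f b₀ := by positivity
      linarith
    rw [le_abs]
    right
    linarith
  -- the top
  have e2 : pr α M (fun f => (M : ℝ) ≤ f z + B * unit α M) ≤ β / 2 := by
    have h4 := dist_key hStd z t₀ (I := I) hI (by rw [hit]; simpa using hI0)
    have h5 : √(|(lw t₀ : ℝ) - lw z| + I + 1) ≤ √((Fintype.card α : ℝ) + I + 1) := by
      refine Real.sqrt_le_sqrt ?_
      have : |(lw t₀ : ℝ) - lw z| ≤ Fintype.card α := by
        rw [hlt, abs_le]
        constructor <;> linarith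
      linarith
    have h6 := markov_div (M := M) (X := fun f => |dd M z t₀ f - ((lw t₀ : ℝ) - lw z)|)
      (fun _ _ => abs_nonneg _) hT (B := β / 2 * T) (by linarith)
    rw [mul_div_assoc, div_self hT.ne', mul_one] at h6
    refine (pr_mono fun f hfOm hf => ?_).trans h6
    have h7 : dd M z t₀ f < B := by
      unfold dd
      rw [div_lt_iff₀ hK]
      have : (f t₀ : ℝ) < M := by exact_mod_cast (mem_Om.mp hfOm).1 t₀
      linarith
    rw [hlt, le_abs]
    right
    linarith
  unfold Rng
  refine (pr_or _ _).trans ?_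
  linarith

lemma H1_mono {c R R' : ℝ} (h : H1 α M c R) (hR : R ≤ R') : H1 α M c R' :=
  fun a b r hr hab => h a b r (hR.trans hr) hab

/-- the largest scale with large fluctuations -/
lemma exists_crit [Nonempty α] (M : ℕ) {c : ℝ} (hc : 0 < c) : ∃ (a b : α) (R : ℝ),
    0 ≤ R ∧ H1 α M c R ∧ |hh M b - hh M a| ≤ R ∧ tau M a b = c * R := by
  set S : Finset (α × α) := univ.filter fun p => c * |hh M p.2 - hh M p.1| ≤ tau M p.1 p.2 with hS
  have hSne : S.Nonempty := by
    obtain ⟨a⟩ := (inferInstance : Nonempty α)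
    refine ⟨(a, a), ?_⟩
    rw [hS, Finset.mem_filter]
    refine ⟨Finset.mem_univ _, ?_⟩
    simp only [sub_self, abs_zero, mul_zero]
    exact tau_nonneg _ _
  obtain ⟨p, hpS, hp⟩ := Finset.exists_max_image S (fun p => tau M p.1 p.2) hSne
  have hp1 := (Finset.mem_filter.mp hpS).2
  refine ⟨p.1, p.2, tau M p.1 p.2 / c, div_nonneg (tau_nonneg _ _) hc.le, ?_, ?_, ?_⟩
  · intro a b r hr hab
    by_cases h : c * |hh M b - hh M a| ≤ tau M a b
    · have h1 := hp (a, b) (Finset.mem_filter.mpr ⟨Finset.mem_univ _, h⟩)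
      rw [div_le_iff₀ hc] at hr
      simp only at h1
      linarith
    · rw [not_le] at h
      have h1 := mul_le_mul_of_nonneg_left hab hc.le
      linarith
  · rw [le_div_iff₀ hc]
    linarith
  · field_simp

lemma eN_pos (P : Type) [Fintype P] [PartialOrder P] : 0 < eN P := by
  unfold eN
  rw [Nat.card_pos_iff]
  refine ⟨?_, inferInstance⟩
  let _ : Fintype (LinearExtension P) := inferInstanceAs (Fintype P)
  let e : Fin (Fintype.card P) ≃o LinearExtension P :=
    monoEquivOfFin (LinearExtension P) rfl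
  let σ : P ≃ Fin (Fintype.card P) := e.symm.toEquiv
  refine ⟨σ, ?_⟩
  have hm : Monotone (toLinearExtension : P → LinearExtension P) := toLinearExtension.monotone
  intro a b hab
  refine lt_of_le_of_ne ?_ (fun h => hab.ne (σ.injective h))
  exact e.symm.monotone (hm hab.le)

/-- probabilities for maps and for linear extensions -/
lemma pr_lt_le (hne : (Om α M).Nonempty) (x y : α) :
    pr α M (fun f => f x < f y) ≤ (eP α x y : ℝ) / eN α +
      pr α M (fun f => ¬ Function.Injective f) := by
  have h0 : (0 : ℝ) < (Om α M).card := by exact_mod_cast hne.card_pos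
  have he : (0 : ℝ) < eN α := by exact_mod_cast eN_pos α
  have h1 : pr α M (fun f => f x < f y) ≤
      pr α M (fun f => Function.Injective f ∧ f x < f y) +
      pr α M (fun f => ¬ Function.Injective f) := by
    refine pr_le_add fun f _ hf => ?_
    by_cases h : Function.Injective f
    · exact Or.inl ⟨h, hf⟩
    · exact Or.inr h
  have h2 : pr α M (fun f => Function.Injective f ∧ f x < f y) ≤ (eP α x y : ℝ) / eN α := by
    have h3 : pr α M (fun f => Function.Injective f ∧ f x < f y) =
        (eP α x y : ℝ) * M.choose (Fintype.card α) / (Om α M).card := by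
      unfold pr
      have h4 := card_inj_lt (α := α) M x y
      have h5 : (((Om α M).filter fun f => Function.Injective f ∧ f x < f y).card : ℝ) =
          (eP α x y : ℝ) * M.choose (Fintype.card α) := by exact_mod_cast h4
      rw [← h5]
      congr 2
      congr 1
      ext f
      simp only [Finset.mem_filter]
    rw [h3, div_le_div_iff₀ h0 he]
    have h6 : (eN α : ℝ) * M.choose (Fintype.card α) ≤ (Om α M).card := by
      have h7 := card_Om_split (α := α) M
      have h8 : eN α * M.choose (Fintype.card α) ≤ (Om α M).card := by omega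
      exact_mod_cast h8
    have h9 : (0 : ℝ) ≤ eP α x y := by positivity
    calc (eP α x y : ℝ) * M.choose (Fintype.card α) * eN α =
        (eP α x y : ℝ) * ((eN α : ℝ) * M.choose (Fintype.card α)) := by ring
      _ ≤ _ := mul_le_mul_of_nonneg_left h6 h9
  linarith

lemma lw_up (z : α) {k : ℕ} (hk : k ≤ (univ.filter fun q : α => z < q).card) :
    lw z + k + 1 ≤ Fintype.card α := by
  have h1 : Disjoint (univ.filter fun q : α => q < z) (univ.filter fun q : α => z < q) := by
    rw [Finset.disjoint_left]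
    intro q h1 h2
    exact lt_asymm (Finset.mem_filter.mp h1).2 (Finset.mem_filter.mp h2).2
  have h2 : z ∉ (univ.filter fun q : α => q < z) ∪ (univ.filter fun q : α => z < q) := by
    rw [Finset.mem_union, Finset.mem_filter, Finset.mem_filter]
    rintro (h | h)
    · exact lt_irrefl _ h.2
    · exact lt_irrefl _ h.2
  have h3 := Finset.card_le_univ (insert z ((univ.filter fun q : α => q < z) ∪
    (univ.filter fun q : α => z < q)))
  rw [Finset.card_insert_of_notMem h2, Finset.card_union_of_disjoint h1] at h3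
  unfold lw
  omega

/-- linear beats square root -/
lemma exists_large (A B δ : ℝ) (hA : 0 ≤ A) (hδ : 0 < δ) : ∃ k : ℕ, 1 ≤ k ∧ 1 ≤ (k : ℝ) - B ∧
    1 / δ ≤ (k : ℝ) ∧ √(A + 2 * k) + A ≤ δ * ((k : ℝ) - B) := by
  obtain ⟨k, hk⟩ := exists_nat_ge (4 * (A + δ * |B| + 1) / δ + 16 / δ ^ 2 + |B| + 1 / δ + 1)
  have h1 : 0 ≤ 4 * (A + δ * |B| + 1) / δ := by positivity
  have h2 : 0 ≤ 16 / δ ^ 2 := by positivity
  have h3 : 0 ≤ |B| := abs_nonneg _
  have h4 : B ≤ |B| := le_abs_self _
  have h5 : 0 ≤ 1 / δ := by positivity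
  refine ⟨k, ?_, by linarith, by linarith, ?_⟩
  · have : (1 : ℝ) ≤ k := by linarith
    exact_mod_cast this
  · have hk1 : 4 * (A + δ * |B| + 1) / δ ≤ k := by linarith
    have hk2 : 16 / δ ^ 2 ≤ k := by linarith
    rw [div_le_iff₀ hδ] at hk1
    rw [div_le_iff₀ (by positivity)] at hk2
    have hk0 : (0 : ℝ) ≤ k := by positivity
    have h6 : √(A + 2 * k) ≤ √A + √(2 * k) := by
      have h10 : 0 ≤ √A := Real.sqrt_nonneg _
      have h11 : 0 ≤ √(2 * (k : ℝ)) := Real.sqrt_nonneg _
      rw [Real.sqrt_le_left (by positivity)]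
      have h12 := Real.sq_sqrt hA
      have h13 := Real.sq_sqrt (by positivity : 0 ≤ 2 * (k : ℝ))
      nlinarith [mul_nonneg h10 h11]
    have h7 : √A ≤ A + 1 := by
      rw [Real.sqrt_le_left (by linarith)]
      nlinarith
    have h8 : √(2 * (k : ℝ)) ≤ δ * k / 2 := by
      rw [Real.sqrt_le_left (by positivity)]
      have h9 : 16 * (k : ℝ) ≤ k * δ ^ 2 * k := mul_le_mul_of_nonneg_right hk2 hk0
      nlinarith
    have h9 : δ * B ≤ δ * |B| := mul_le_mul_of_nonneg_left h4 hδ.le
    have h10 : 0 ≤ δ * |B| := by positivity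
    linarith

end Pool.Agent.TH161.KS
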