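import Mathlib
import Pool.Agent.TH161.KS.Main2
import Pool.Agent.TH263.KS_LC
import Pool.Agent.TH359.KS_RAIL
import Pool.Agent.TH959.KS_TAIL
import Pool.Agent.TH889.KS_BALL
import Pool.Agent.TH521.KS_GAP
import Pool.Agent.TH921.KS_LLN
import Pool.Agent.TH822.KS_FREE
import Pool.Agent.TH938.KS_DBL
import Pool.Agent.TH496.KS_FLUC
import Pool.Agent.TH740.KS_VIS
import Pool.Agent.TH494.KS_LEX
import Pool.Agent.TH720.KS_STD
import Pool.Agent.TH511.KS_PAR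
import Pool.Agent.TH558.KS_HEAVY
import Pool.Agent.TH558.KS_LARGE
import Pool.Agent.TH541.KS_GOOD
import Pool.Agent.TH999.KS_END

/-!
# The Kahn–Saks conjecture: the balance constant tends to `1/2` as the width tends to infinity
-/

set_option autoImplicit false

namespace Pool.Agent.TH161.KS

open Pool.Agent.TH161.LW

/-- the Kahn–Saks conjecture, for `ε ≤ 1/2` and with `x ≠ y` -/
theorem kahn_saks : ∀ ε : ℝ, 0 < ε → ε ≤ 1 / 2 → ∃ W : ℕ, ∀ (P : Type) [Fintype P]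
    [PartialOrder P] (A : Finset P), IsAntichain (· ≤ ·) (A : Set P) → W ≤ A.card →
    ∃ x y : P, x ≠ y ∧ (1 / 2 - ε) * (eN P : ℝ) ≤ eP P x y ∧
      (1 / 2 - ε) * (eN P : ℝ) ≤ eP P y x :=
  kahn_saks_of Pool.Agent.TH359.KS_RAIL.t_RAIL Pool.Agent.TH263.KS_LC.t_LC
    Pool.Agent.TH959.KS_TAIL.t_TAIL Pool.Agent.TH889.KS_BALL.t_BALL Pool.Agent.TH521.KS_GAP.t_GAP
    Pool.Agent.TH921.KS_LLN.t_LLN Pool.Agent.TH822.KS_FREE.t_FREE Pool.Agent.TH938.KS_DBL.t_DBL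
    Pool.Agent.TH496.KS_FLUC.t_FLUC Pool.Agent.TH740.KS_VIS.t_VIS Pool.Agent.TH494.KS_LEX.t_LEX
    Pool.Agent.TH720.KS_STD.t_STD Pool.Agent.TH511.KS_PAR.t_PAR Pool.Agent.TH558.KS_HEAVY.t_HEAVY
    Pool.Agent.TH558.KS_LARGE.t_LARGE Pool.Agent.TH541.KS_GOOD.t_GOOD Pool.Agent.TH999.KS_END.t_END

end Pool.Agent.TH161.KS
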